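import Pool.Agent.Helper64.DT.Stmts

/-!
# Minimal odd closed walks of length at least four (module CY4 of the project DT)
-/

set_option autoImplicit false

namespace Pool.Agent.Helper85.DTCY4

open Pool.Agent.Helper64.CT
open Pool.Agent.Helper64.DT

variable {V : Type} {G : SimpleGraph V}

theorem tch_congr {x u v : V} {Q : Set V} (h : Tch G x Q u) (h' : Comp G x u v) :
    Tch G x Q v := by
  obtain ⟨p, hp, hp'⟩ := h
  exact ⟨p, hp, by rw [← Att.congr h']; exact hp'⟩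

theorem es_congr {Dθ : Set V → V → ℕ} {Dσ : Set V → V → Bool} {Dt : Set V → V → V → Bool}
    (hD : Dat G Dθ Dσ Dt) {x u u' v : V} {b : Bool} (h : Es G Dt x u v b)
    (hc : Comp G x u u') : Es G Dt x u' v b := by
  obtain ⟨hu, hv, h⟩ := h
  refine ⟨hc.right, hv, ?_⟩
  rcases h with ⟨h1, h2⟩ | ⟨h1, h2⟩ | ⟨Q, hQ, hB, hx, t1, t2, hb⟩
  · exact Or.inl ⟨hc.symm.trans h1, h2⟩
  · exact Or.inr (Or.inl ⟨h1.congr hc (Comp.refl hv), h2⟩)
  · refine Or.inr (Or.inr ⟨Q, hQ, hB, hx, tch_congr t1 hc, t2, ?_⟩)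
    have h3 := ((hD Q hQ).2 x hx).1.1 u u' hc
    rw [hb, h3]

theorem le_full {x X Y : V} (h : Le G x X Y) :
    ∃ u, Comp G x Y u ∧ ∀ n ∈ Att G x X, G.Adj u n := by
  obtain ⟨⟨n, hnX, hnY⟩, hm⟩ := h
  obtain ⟨hxn, u, hu, hnu⟩ := hnY
  refine ⟨u, hu, fun m hmX => ?_⟩
  by_contra hc
  exact hm u hu ⟨⟨n, hnX, hnu.symm⟩, ⟨m, hmX, hc⟩⟩

theorem le_sub {x X Y : V} (h : Le G x X Y) : ∀ n ∈ Att G x X, n ∈ Att G x Y := by
  obtain ⟨u, hu, hf⟩ := le_full h
  intro n hn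
  exact ⟨hn.1, u, hu, (hf n hn).symm⟩

theorem prop_le {x X Y Z : V} (h : Le G x X Y) (hc : Conf G x X Z) (hd : ¬ Comp G x Z Y)
    (hn : ¬ Conf G x Y Z) : Le G x Z Y := by
  obtain ⟨_, _, u, hu, ⟨n, hnX, hun⟩, m, hmX, hum⟩ := hc
  have hsub := le_sub h
  have hmix : Mixed G u (Att G x Y) := ⟨⟨n, hsub n hnX, hun⟩, m, hsub m hmX, hum⟩
  refine ⟨⟨n, ⟨hnX.1, u, hu, hun.symm⟩, hsub n hnX⟩, fun w hw hmw => ?_⟩
  exact hn ⟨fun h' => hd h'.symm, ⟨w, hw, hmw⟩, u, hu, hmix⟩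

theorem le_or_le {x Y Z n : V} (hd : ¬ Comp G x Y Z) (hn : ¬ Conf G x Y Z)
    (h1 : n ∈ Att G x Y) (h2 : n ∈ Att G x Z) : Le G x Y Z ∨ Le G x Z Y := by
  by_cases h : ∃ u, Comp G x Y u ∧ Mixed G u (Att G x Z)
  · left
    refine ⟨⟨n, h1, h2⟩, fun u hu hm => hn ⟨hd, h, u, hu, hm⟩⟩
  · right
    exact ⟨⟨n, h2, h1⟩, fun u hu hm => h ⟨u, hu, hm⟩⟩

theorem exMax (hDF : DF G) (z : V) : ∃ Q, MaxC G Q ∧ z ∈ Q := by
  by_cases h : ∃ p, G.Adj z p
  · obtain ⟨p, hp⟩ := h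
    exact ⟨_, exists_MaxC hDF hp, Or.inl rfl⟩
  · refine ⟨{z}, ⟨?_, ?_⟩, rfl⟩
    · intro a ha b hb hab
      rw [Set.mem_singleton_iff] at ha hb
      exact absurd (ha.trans hb.symm) hab
    · intro w hw
      by_contra hne
      have h1 : z ≠ w := fun e => hne e.symm
      exact h ⟨w, (hw z rfl h1).symm⟩

/-- the hypotheses -/
structure HH (G : SimpleGraph V) (Dt : Set V → V → V → Bool) (x : V) (t : ℕ) (y : ℕ → V)
    (b : ℕ → Bool) : Prop where
  t4 : 4 ≤ t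
  py : ∀ i, y (i + t) = y i
  pb : ∀ i, b (i + t) = b i
  es : ∀ i, Es G Dt x (y i) (y (i + 1)) (b i)
  bal : ∀ g : V → Bool, ∃ i, b i ≠ xor (g (y i)) (g (y (i + 1)))
  nc : ∀ i j, i + 2 ≤ j → j + 2 ≤ i + t → ∀ b', ¬ Es G Dt x (y i) (y j) b'

theorem per {α : Type} {f : ℕ → α} {t : ℕ} (h : ∀ i, f (i + t) = f i) (i k : ℕ) :
    f (i + t * k) = f i := by
  induction k with
  | zero => simp
  | succ k ih => rw [Nat.mul_succ, ← Nat.add_assoc, h, ih]

variable {Dt : Set V → V → V → Bool} {x : V} {t : ℕ} {y : ℕ → V} {b : ℕ → Bool}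

theorem HH.shift (h : HH G Dt x t y b) (s : ℕ) :
    HH G Dt x t (fun i => y (i + s)) (fun i => b (i + s)) where
  t4 := h.t4
  py i := by
    show y (i + t + s) = y (i + s)
    have e : i + t + s = i + s + t := by omega
    rw [e, h.py]
  pb i := by
    show b (i + t + s) = b (i + s)
    have e : i + t + s = i + s + t := by omega
    rw [e, h.pb]
  es i := by
    show Es G Dt x (y (i + s)) (y (i + 1 + s)) (b (i + s))
    have e : i + 1 + s = i + s + 1 := by omega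
    rw [e]
    exact h.es (i + s)
  bal g := by
    obtain ⟨i, hi⟩ := h.bal g
    refine ⟨i + (t * s - s), ?_⟩
    have hs : s ≤ t * s := Nat.le_mul_of_pos_left s (by have := h.t4; omega)
    have e1 : i + (t * s - s) + s = i + t * s := by omega
    have e2 : i + (t * s - s) + 1 + s = i + 1 + t * s := by omega
    show b (i + (t * s - s) + s) ≠ xor (g (y (i + (t * s - s) + s)))
      (g (y (i + (t * s - s) + 1 + s)))
    rw [e1, e2, per h.pb, per h.py, per h.py]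
    exact hi
  nc i j h1 h2 b' := h.nc (i + s) (j + s) (by omega) (by omega) b'

theorem HH.fin (h : HH G Dt x t y b) (g : V → Bool)
    (hg : ∀ k < t, b k = xor (g (y k)) (g (y (k + 1)))) : False := by
  obtain ⟨i, hi⟩ := h.bal g
  apply hi
  have hb : b i = b (i % t) := by
    have h1 := per h.pb (i % t) (i / t)
    rw [Nat.mod_add_div] at h1
    exact h1
  have hy : y i = y (i % t) := by
    have h1 := per h.py (i % t) (i / t)
    rw [Nat.mod_add_div] at h1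
    exact h1
  have hy1 : y (i + 1) = y (i % t + 1) := by
    have h1 := per h.py (i % t + 1) (i / t)
    have e : i % t + 1 + t * (i / t) = i + 1 := by
      have := Nat.mod_add_div i t
      omega
    rw [e] at h1
    exact h1
  rw [hb, hy, hy1]
  exact hg (i % t) (Nat.mod_lt _ (by have := h.t4; omega))

theorem HH.far (h : HH G Dt x t y b) (i : ℕ) : y i ∈ Far G x := (h.es i).1

theorem HH.ncC (h : HH G Dt x t y b) {i j : ℕ} (h1 : i + 2 ≤ j) (h2 : j + 2 ≤ i + t) :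
    ¬ Comp G x (y i) (y j) := fun hc =>
  h.nc i j h1 h2 false ⟨h.far i, h.far j, Or.inl ⟨hc, rfl⟩⟩

theorem HH.ncF (h : HH G Dt x t y b) {i j : ℕ} (h1 : i + 2 ≤ j) (h2 : j + 2 ≤ i + t) :
    ¬ Conf G x (y i) (y j) := fun hc =>
  h.nc i j h1 h2 true ⟨h.far i, h.far j, Or.inr (Or.inl ⟨hc, rfl⟩)⟩

theorem HH.ncQ (h : HH G Dt x t y b) {i j : ℕ} (h1 : i + 2 ≤ j) (h2 : j + 2 ≤ i + t)
    {Q : Set V} (hQ : MaxC G Q) (hB : Big Q) (hx : x ∈ Q) (t1 : Tch G x Q (y i))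
    (t2 : Tch G x Q (y j)) : False :=
  h.nc i j h1 h2 _ ⟨h.far i, h.far j, Or.inr (Or.inr ⟨Q, hQ, hB, hx, t1, t2, rfl⟩)⟩

theorem HH.adjC {Dθ : Set V → V → ℕ} {Dσ : Set V → V → Bool} (hD : Dat G Dθ Dσ Dt)
    (h : HH G Dt x t y b) (i : ℕ) : ¬ Comp G x (y i) (y (i + 1)) := by
  intro hc
  have h1 := es_congr hD (h.es (i + 1)) hc.symm
  exact h.nc i (i + 2) (by omega) (by have := h.t4; omega) _ h1

theorem HH.edge {Dθ : Set V → V → ℕ} {Dσ : Set V → V → Bool} (hD : Dat G Dθ Dσ Dt)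
    (h : HH G Dt x t y b) (i : ℕ) : Conf G x (y i) (y (i + 1)) ∨
      ∃ Q, MaxC G Q ∧ Big Q ∧ x ∈ Q ∧ Tch G x Q (y i) ∧ Tch G x Q (y (i + 1)) ∧
        b i = xor (Dt Q x (y i)) (Dt Q x (y (i + 1))) := by
  rcases (h.es i).2.2 with ⟨h1, _⟩ | ⟨h1, _⟩ | h1
  · exact absurd h1 (h.adjC hD i)
  · exact Or.inl h1
  · exact Or.inr h1

theorem HH.mat {Dθ : Set V → V → ℕ} {Dσ : Set V → V → Bool} (hD : Dat G Dθ Dσ Dt)
    (h : HH G Dt x t y b) {i : ℕ} (hc : Conf G x (y i) (y (i + 1))) {g : V → Bool}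
    (hg : PropC G x g) : b i = xor (g (y i)) (g (y (i + 1))) := by
  have key : ∀ f : V → Bool, PropC G x f → xor (f (y i)) (f (y (i + 1))) = true := by
    intro f hf
    have h1 := hf.2 _ _ hc
    revert h1
    cases f (y i) <;> cases f (y (i + 1)) <;> simp
  rw [key g hg]
  rcases (h.es i).2.2 with ⟨h1, _⟩ | ⟨_, h2⟩ | ⟨Q, hQ, _, hx, _, _, hb⟩
  · exact absurd h1 (h.adjC hD i)
  · exact h2
  · rw [hb]
    exact key _ ((hD Q hQ).2 x hx).1

theorem pq (hDF : DF G) {Q : Set V} (hQ : MaxC G Q) (hB : Big Q) {u v : V} (hx : x ∈ Q)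
    (hT : Tch G x Q u) (hL : Le G x u v) :
    ∃ p q, p ∈ Att G x u ∧ G.Adj x q ∧ G.Adj p q ∧ q ∉ Att G x u := by
  obtain ⟨p, hp, hpA⟩ := hT
  obtain ⟨q, hq, hqx, hqp⟩ := hB x p
  have hxp : G.Adj x p := hpA.1
  have hxq : G.Adj x q := hQ.1 x hx q hq (fun e => hqx e.symm)
  have hpq : G.Adj p q := hQ.1 p hp q hq (fun e => hqp e.symm)
  refine ⟨p, q, hpA, hxq, hpq, fun hqA => ?_⟩
  obtain ⟨w, hw, hf⟩ := le_full hL
  exact hDF.far hxp hxq hpq hw.right (hf p hpA) (hf q hqA)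

theorem step1 (hHRQ : ST_HRQ) (hLMX : ST_LMX) (hDF : DF G) (hP : Prime G)
    {Dθ : Set V → V → ℕ} {Dσ : Set V → V → Bool} (hD : Dat G Dθ Dσ Dt)
    (h : HH G Dt x t y b) {i : ℕ} (hi2 : 2 ≤ i) (hit : i + 2 ≤ t)
    (hL : Le G x (y i) (y 0)) : False := by
  have hprop : ∀ Q, MaxC G Q → x ∈ Q → PropC G x (Dt Q x) := fun Q hQ hx =>
    ((hD Q hQ).2 x hx).1
  have c0 : ∀ k, 2 ≤ k → k + 2 ≤ t → ¬ Comp G x (y k) (y 0) := fun k h1 h2 hc =>
    h.ncC (i := 0) (j := k) (by omega) (by omega) hc.symm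
  have f0 : ∀ k, 2 ≤ k → k + 2 ≤ t → ¬ Conf G x (y 0) (y k) := fun k h1 h2 =>
    h.ncF (i := 0) (j := k) (by omega) (by omega)
  have nobig : ∀ k, 2 ≤ k → k + 2 ≤ t → Le G x (y k) (y 0) → ∀ Q, MaxC G Q → Big Q →
      x ∈ Q → ¬ Tch G x Q (y k) := by
    intro k h1 h2 hLk Q hQ hB hx hT
    have hT0 : Tch G x Q (y 0) := by
      obtain ⟨p, hp, hp'⟩ := hT
      exact ⟨p, hp, le_sub hLk p hp'⟩
    exact h.ncQ (i := 0) (j := k) (by omega) (by omega) hQ hB hx hT0 hT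
  have up : ∀ k, i ≤ k → k + 2 ≤ t → Le G x (y k) (y 0) := by
    intro k hk
    induction k, hk using Nat.le_induction with
    | base => intro _; exact hL
    | succ k hk ih =>
      intro hkt
      have hLk := ih (by omega)
      have hcf : Conf G x (y k) (y (k + 1)) := by
        rcases h.edge hD k with h1 | ⟨Q, hQ, hB, hx, t1, _⟩
        · exact h1
        · exact absurd t1 (nobig k (by omega) (by omega) hLk Q hQ hB hx)
      exact prop_le hLk hcf (c0 (k + 1) (by omega) (by omega))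
        (f0 (k + 1) (by omega) (by omega))
  have down : ∀ m, m + 2 ≤ i → Le G x (y (i - m)) (y 0) := by
    intro m
    induction m with
    | zero => intro _; exact hL
    | succ m ih =>
      intro hm
      have hLk := ih (by omega)
      obtain ⟨k, hk⟩ : ∃ k, k = i - (m + 1) := ⟨_, rfl⟩
      have hk1 : i - m = k + 1 := by omega
      rw [hk1] at hLk
      rw [← hk]
      have hcf : Conf G x (y k) (y (k + 1)) := by
        rcases h.edge hD k with h1 | ⟨Q, hQ, hB, hx, _, t2, _⟩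
        · exact h1
        · exact absurd t2 (nobig (k + 1) (by omega) (by omega) hLk Q hQ hB hx)
      exact prop_le hLk hcf.symm (c0 k (by omega) (by omega)) (f0 k (by omega) (by omega))
  have all : ∀ k, 2 ≤ k → k + 2 ≤ t → Le G x (y k) (y 0) := by
    intro k h1 h2
    rcases le_total i k with h3 | h3
    · exact up k h3 h2
    · have h4 := down (i - k) (by omega)
      have e : i - (i - k) = k := by omega
      rwa [e] at h4
  have confs : ∀ k, 1 ≤ k → k + 2 ≤ t → Conf G x (y k) (y (k + 1)) := by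
    intro k h1 h2
    rcases h.edge hD k with h3 | ⟨Q, hQ, hB, hx, t1, t2, _⟩
    · exact h3
    · by_cases hk : 2 ≤ k
      · exact absurd t1 (nobig k hk h2 (all k hk h2) Q hQ hB hx)
      · have h4 := h.t4
        have h5 : k + 1 + 2 ≤ t := by omega
        exact absurd t2 (nobig (k + 1) (by omega) h5 (all (k + 1) (by omega) h5) Q hQ hB hx)
  obtain ⟨s, rfl⟩ : ∃ s, t = s + 4 := ⟨t - 4, by have := h.t4; omega⟩
  have yt : y (s + 3 + 1) = y 0 := by
    have h1 := h.py 0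
    have e : 0 + (s + 4) = s + 3 + 1 := by omega
    rwa [e] at h1
  have hgood : ∀ g : V → Bool, PropC G x g → b 0 = xor (g (y 0)) (g (y (0 + 1))) →
      b (s + 3) = xor (g (y (s + 3))) (g (y (s + 3 + 1))) → False := by
    intro g hg h0 hl
    apply h.fin g
    intro k hk
    by_cases e0 : k = 0
    · rw [e0]; exact h0
    by_cases e1 : k = s + 3
    · rw [e1]; exact hl
    exact h.mat hD (confs k (by omega) (by omega)) hg
  by_cases hc0 : Conf G x (y 0) (y (0 + 1))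
  · by_cases hct : Conf G x (y (s + 3)) (y (s + 3 + 1))
    · obtain ⟨Q, hQ, hx⟩ := exMax hDF x
      exact hgood _ (hprop Q hQ hx) (h.mat hD hc0 (hprop Q hQ hx))
        (h.mat hD hct (hprop Q hQ hx))
    · rcases h.edge hD (s + 3) with h1 | ⟨Q, hQ, hB, hx, _, _, hb⟩
      · exact hct h1
      · exact hgood _ (hprop Q hQ hx) (h.mat hD hc0 (hprop Q hQ hx)) hb
  · rcases h.edge hD 0 with h1 | ⟨Q1, hQ1, hB1, hx1, _, t1, hb1⟩
    · exact hc0 h1
    by_cases hct : Conf G x (y (s + 3)) (y (s + 3 + 1))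
    · exact hgood _ (hprop Q1 hQ1 hx1) hb1 (h.mat hD hct (hprop Q1 hQ1 hx1))
    rcases h.edge hD (s + 3) with h1 | ⟨Q2, hQ2, hB2, hx2, t2, _, hb2⟩
    · exact hct h1
    have n1 : ¬ Comp G x (y 1) (y 0) := fun hc => h.adjC hD 0 hc.symm
    have nt : ¬ Comp G x (y (s + 3)) (y 0) := by
      have h1 := h.adjC hD (s + 3)
      rwa [yt] at h1
    have L1 : Le G x (y 1) (y 0) :=
      prop_le (all 2 (by omega) (by omega)) (confs 1 (by omega) (by omega)).symm n1 hc0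
    have Lt : Le G x (y (s + 3)) (y 0) := by
      refine prop_le (all (s + 2) (by omega) (by omega)) (confs (s + 2) (by omega) (by omega))
        nt ?_
      intro hc
      apply hct
      rw [yt]
      exact hc.symm
    have r1 : Dt Q1 x (y 1) = Dt Q1 x (y 0) :=
      hHRQ V G hDF hP Q1 (Dθ Q1) (Dσ Q1) (Dt Q1) hQ1 hB1 (hD Q1 hQ1) x hx1 (y 1) (y 0)
        (h.far 1) (h.far 0) n1 L1 t1
    have r2 : Dt Q2 x (y (s + 3)) = Dt Q2 x (y 0) :=
      hHRQ V G hDF hP Q2 (Dθ Q2) (Dσ Q2) (Dt Q2) hQ2 hB2 (hD Q2 hQ2) x hx2 (y (s + 3)) (y 0)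
        (h.far _) (h.far 0) nt Lt t2
    have allL : ∀ k, 1 ≤ k → k ≤ s + 3 → Le G x (y k) (y 0) := by
      intro k h1 h2
      by_cases e1 : k = 1
      · rw [e1]; exact L1
      by_cases e2 : k = s + 3
      · rw [e2]; exact Lt
      exact all k (by omega) (by omega)
    have allC : ∀ k, 1 ≤ k → k ≤ s + 3 → ¬ Comp G x (y k) (y 0) := by
      intro k h1 h2
      by_cases e1 : k = 1
      · rw [e1]; exact n1
      by_cases e2 : k = s + 3
      · rw [e2]; exact nt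
      exact c0 k (by omega) (by omega)
    have r3 : Dt Q1 x (y 1) = Dt Q1 x (y (s + 3)) := by
      have h3 := hLMX V G hDF hP (fun z => by
        obtain ⟨Q, hQ, hz⟩ := exMax hDF z
        exact ⟨Dt Q z, ((hD Q hQ).2 z hz).1⟩) x (y 0) (Dt Q1 x) (hprop Q1 hQ1 hx1) (h.far 0)
        (s + 2) (fun k => y (k + 1)) (by omega)
        (fun k hk => confs (k + 1) (by omega) (by omega))
        (fun k hk => allL (k + 1) (by omega) (by omega))
        (fun k hk => allC (k + 1) (by omega) (by omega))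
        (pq hDF hQ1 hB1 hx1 t1 L1) (pq hDF hQ2 hB2 hx2 t2 Lt)
      exact h3
    refine hgood _ (hprop Q1 hQ1 hx1) hb1 ?_
    rw [hb2, yt, r2, ← r3, r1]
    simp

theorem stepD (hHRQ : ST_HRQ) (hLMX : ST_LMX) (hDF : DF G) (hP : Prime G)
    {Dθ : Set V → V → ℕ} {Dσ : Set V → V → Bool} (hD : Dat G Dθ Dσ Dt)
    (h : HH G Dt x t y b) {i j : ℕ} (h1 : i + 2 ≤ j) (h2 : j + 2 ≤ i + t) {n : V}
    (hi : n ∈ Att G x (y i)) (hj : n ∈ Att G x (y j)) : False := by
  rcases le_or_le (h.ncC h1 h2) (h.ncF h1 h2) hi hj with hL | hL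
  · refine step1 hHRQ hLMX hDF hP hD (h.shift j) (i := i + t - j) (by omega) (by omega) ?_
    show Le G x (y (i + t - j + j)) (y (0 + j))
    have e : i + t - j + j = i + t := by omega
    rw [e, h.py, Nat.zero_add]
    exact hL
  · refine step1 hHRQ hLMX hDF hP hD (h.shift i) (i := j - i) (by omega) (by omega) ?_
    show Le G x (y (j - i + i)) (y (0 + i))
    have e : j - i + i = j := by omega
    rw [e, Nat.zero_add]
    exact hL

theorem stepT (hHRQ : ST_HRQ) (hLMX : ST_LMX) (hDF : DF G) (hP : Prime G)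
    {Dθ : Set V → V → ℕ} {Dσ : Set V → V → Bool} (hD : Dat G Dθ Dσ Dt)
    (h : HH G Dt x t y b) {i j : ℕ} (h1 : i + 2 ≤ j) (h2 : j + 2 ≤ i + t) {Q : Set V}
    (hQ : MaxC G Q) (hx : x ∈ Q) (ti : Tch G x Q (y i)) (tj : Tch G x Q (y j)) : False := by
  by_cases hB : Big Q
  · exact h.ncQ h1 h2 hQ hB hx ti tj
  · unfold Big at hB
    push Not at hB
    obtain ⟨u, v, huv⟩ := hB
    obtain ⟨p, hp, hpA⟩ := ti
    obtain ⟨q, hq, hqA⟩ := tj
    have hpx : p ≠ x := fun e => G.irrefl (e ▸ hpA.1)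
    have hqx : q ≠ x := fun e => G.irrefl (e ▸ hqA.1)
    have hpq : p = q := by
      have a1 := huv x hx
      have a2 := huv p hp
      have a3 := huv q hq
      by_cases e1 : x = u
      · have b2 : p ≠ u := fun e => hpx (e.trans e1.symm)
        have b3 : q ≠ u := fun e => hqx (e.trans e1.symm)
        exact (a2 b2).trans (a3 b3).symm
      · have e2 := a1 e1
        have b2 : p = u := by
          by_contra hc
          exact hpx ((a2 hc).trans e2.symm)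
        have b3 : q = u := by
          by_contra hc
          exact hqx ((a3 hc).trans e2.symm)
        exact b2.trans b3.symm
    rw [← hpq] at hqA
    exact stepD hHRQ hLMX hDF hP hD h h1 h2 hpA hqA

/-- two maximal cliques at `x` with related elements are equal -/
theorem maxc_eq (hDF : DF G) {R R' : Set V} (hR : MaxC G R) (hR' : MaxC G R') {x p p' : V}
    (hx : x ∈ R) (hx' : x ∈ R') (hp : p ∈ R) (hp' : p' ∈ R') (hxp : G.Adj x p)
    (hxp' : G.Adj x p') (hpp : p = p' ∨ G.Adj p p') : R ⊆ R' := by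
  have tr : ∀ a b c, G.Adj x a → G.Adj x b → G.Adj x c → (a = b ∨ G.Adj a b) →
      (b = c ∨ G.Adj b c) → (a = c ∨ G.Adj a c) := by
    intro a b c ha hb hc h1 h2
    rcases h1 with rfl | h1
    · exact h2
    rcases h2 with rfl | h2
    · exact Or.inr h1
    exact hDF.tr ha hb hc h1 h2
  intro z hz
  by_cases hzx : z = x
  · rw [hzx]; exact hx'
  have hxz : G.Adj x z := hR.1 x hx z hz (fun e => hzx e.symm)
  apply hR'.2
  intro q hq hqz
  by_cases hqx : q = x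
  · rw [hqx]; exact hxz.symm
  have hxq : G.Adj x q := hR'.1 x hx' q hq (fun e => hqx e.symm)
  have h1 : z = p ∨ G.Adj z p := by
    by_cases e : z = p
    · exact Or.inl e
    · exact Or.inr (hR.1 z hz p hp e)
  have h2 : p' = q ∨ G.Adj p' q := by
    by_cases e : p' = q
    · exact Or.inl e
    · exact Or.inr (hR'.1 p' hp' q hq e)
  rcases tr z p q hxz hxp hxq h1 (tr p p' q hxp hxp' hxq hpp h2) with h3 | h3
  · exact absurd h3.symm hqz
  · exact h3

theorem conf_common {x Y Z : V} (h : Conf G x Y Z) :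
    ∃ n, n ∈ Att G x Y ∧ n ∈ Att G x Z := by
  obtain ⟨_, ⟨u, hu, ⟨n, hn, hun⟩, _⟩, _⟩ := h
  exact ⟨n, ⟨hn.1, u, hu, hun.symm⟩, hn⟩

theorem exR (hDF : DF G) {Dθ : Set V → V → ℕ} {Dσ : Set V → V → Bool} (hD : Dat G Dθ Dσ Dt)
    (h : HH G Dt x t y b) (i : ℕ) :
    ∃ Q, MaxC G Q ∧ x ∈ Q ∧ Tch G x Q (y i) ∧ Tch G x Q (y (i + 1)) := by
  rcases h.edge hD i with h1 | ⟨Q, hQ, _, hx, t1, t2, _⟩
  · obtain ⟨n, hn1, hn2⟩ := conf_common h1
    exact ⟨_, exists_MaxC hDF hn1.1, Or.inl rfl, ⟨n, Or.inr (Or.inl rfl), hn1⟩,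
      ⟨n, Or.inr (Or.inl rfl), hn2⟩⟩
  · exact ⟨Q, hQ, hx, t1, t2⟩

theorem step2 (hLNK : ST_LNK) (hDF : DF G) (hCI : CI G)
    {Dθ : Set V → V → ℕ} {Dσ : Set V → V → Bool} (hD : Dat G Dθ Dσ Dt)
    (h : HH G Dt x t y b)
    (hT : ∀ i j, i + 2 ≤ j → j + 2 ≤ i + t → ∀ Q, MaxC G Q → x ∈ Q → Tch G x Q (y i) →
      Tch G x Q (y j) → False) : False := by
  choose R hR hxR hRi hRs using fun i => exR hDF hD h i
  choose e he heA using hRi
  have t4 := h.t4
  have hxe : ∀ i, G.Adj x (e i) := fun i => (heA i).1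
  -- related elements: the two cliques are touched by the same components
  have hrel : ∀ i j, (e i = e j ∨ G.Adj (e i) (e j)) → R i ⊆ R j := fun i j hij =>
    maxc_eq hDF (hR i) (hR j) (hxR i) (hxR j) (he i) (he j) (hxe i) (hxe j) hij
  have hrel' : ∀ i j, (e i = e j ∨ G.Adj (e i) (e j)) → R j ⊆ R i := fun i j hij =>
    hrel j i (hij.elim (fun a => Or.inl a.symm) (fun a => Or.inr a.symm))
  have tchi : ∀ i, Tch G x (R i) (y i) := fun i => ⟨e i, he i, heA i⟩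
  have mono : ∀ {A B : Set V} {u : V}, A ⊆ B → Tch G x A u → Tch G x B u := by
    intro A B u hAB hTA
    obtain ⟨p, hp, hpA⟩ := hTA
    exact ⟨p, hAB hp, hpA⟩
  -- e 1 is not related to e k, 2 ≤ k ≤ t - 1
  have n1k : ∀ k, 2 ≤ k → k + 1 ≤ t → ¬ (e 1 = e k ∨ G.Adj (e 1) (e k)) := by
    intro k h2 h3 hr
    have hs := hrel' 1 k hr
    by_cases hk : k = 2
    · subst hk
      exact hT 1 3 (by omega) (by omega) (R 1) (hR 1) (hxR 1) (tchi 1) (mono hs (hRs 2))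
    · exact hT 1 k (by omega) (by omega) (R 1) (hR 1) (hxR 1) (tchi 1) (mono hs (tchi k))
  have n01 : ¬ (e 0 = e 1 ∨ G.Adj (e 0) (e 1)) := by
    intro hr
    have hs := hrel' 0 1 hr
    exact hT 0 2 (by omega) (by omega) (R 0) (hR 0) (hxR 0) (tchi 0) (mono hs (hRs 1))
  have n02 : ¬ (e 0 = e 2 ∨ G.Adj (e 0) (e 2)) := by
    intro hr
    have hs := hrel' 0 2 hr
    exact hT 0 2 (by omega) (by omega) (R 0) (hR 0) (hxR 0) (tchi 0) (mono hs (tchi 2))
  have sym : ∀ i j, ¬ (e i = e j ∨ G.Adj (e i) (e j)) → ¬ (e j = e i ∨ G.Adj (e j) (e i)) :=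
    fun i j hn hr => hn (hr.elim (fun a => Or.inl a.symm) (fun a => Or.inr a.symm))
  have clq : ∀ i p, p ∈ R i → (e i = p ∨ G.Adj (e i) p) := by
    intro i p hp
    by_cases e1 : e i = p
    · exact Or.inl e1
    · exact Or.inr ((hR i).1 _ (he i) p hp e1)
  -- Comp (e 1) (e 2) (e k)
  have chain : ∀ k, 2 ≤ k → k + 1 ≤ t → Comp G (e 1) (e 2) (e k) := by
    intro k hk
    induction k, hk using Nat.le_induction with
    | base =>
      intro _
      have h3 := n1k 2 (by omega) (by omega)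
      exact Comp.refl ⟨fun e' => h3 (Or.inl e'.symm), fun e' => h3 (Or.inr e')⟩
    | succ k hk ih =>
      intro hkt
      have h1 := ih (by omega)
      obtain ⟨p, hp, hpA⟩ := hRs k
      have a1 := n1k k hk (by omega)
      have a2 := n1k (k + 1) (by omega) hkt
      have h2 : Comp G (e 1) (e k) (e (k + 1)) := by
        refine hLNK V G hDF x (y (k + 1)) (e k) (e (k + 1)) (e 1) p (e (k + 1))
          (h.far (k + 1)) hpA (heA (k + 1)) (clq k p hp) (Or.inl rfl) (hxe k) (hxe (k + 1))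
          (hxe 1) (fun e' => a1 (Or.inl e')) (fun e' => a2 (Or.inl e'))
          (fun e' => a1 (Or.inr e')) (fun e' => a2 (Or.inr e')) ?_
        intro hA
        exact hT 1 (k + 1) (by omega) (by omega) (R 1) (hR 1) (hxR 1) (tchi 1)
          ⟨e 1, he 1, hA⟩
      exact h1.trans h2
  have last : Comp G (e 1) (e (t - 1)) (e 0) := by
    have h1 := hRs (t - 1)
    have e1 : t - 1 + 1 = 0 + t := by omega
    rw [e1, h.py] at h1
    obtain ⟨p, hp, hpA⟩ := h1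
    have a1 := n1k (t - 1) (by omega) (by omega)
    have a2 := sym _ _ n01
    refine hLNK V G hDF x (y 0) (e (t - 1)) (e 0) (e 1) p (e 0) (h.far 0) hpA (heA 0)
      (clq (t - 1) p hp) (Or.inl rfl) (hxe _) (hxe 0) (hxe 1) (fun e' => a1 (Or.inl e'))
      (fun e' => a2 (Or.inl e')) (fun e' => a1 (Or.inr e')) (fun e' => a2 (Or.inr e')) ?_
    intro hA
    exact hT 0 2 (by omega) (by omega) (R 1) (hR 1) (hxR 1) ⟨e 1, he 1, hA⟩ (hRs 1)
  have c1 : Comp G (e 1) (e 0) (e 2) :=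
    ((chain (t - 1) (by omega) (by omega)).trans last).symm
  have c0 : Comp G (e 0) (e 1) (e 2) := by
    obtain ⟨p, hp, hpA⟩ := hRs 1
    refine hLNK V G hDF x (y 2) (e 1) (e 2) (e 0) p (e 2) (h.far 2) hpA (heA 2)
      (clq 1 p hp) (Or.inl rfl) (hxe 1) (hxe 2) (hxe 0) (fun e' => n01 (Or.inl e'))
      (fun e' => n02 (Or.inl e')) (fun e' => n01 (Or.inr e')) (fun e' => n02 (Or.inr e')) ?_
    intro hA
    exact hT 0 2 (by omega) (by omega) (R 0) (hR 0) (hxR 0) (tchi 0) ⟨e 0, he 0, hA⟩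
  have c2 : Comp G (e 2) (e 0) (e 1) := by
    obtain ⟨p, hp, hpA⟩ := hRs 0
    have a1 := sym _ _ n02
    have a2 := sym _ _ (n1k 2 (by omega) (by omega))
    refine hLNK V G hDF x (y 1) (e 0) (e 1) (e 2) p (e 1) (h.far 1) hpA (heA 1)
      (clq 0 p hp) (Or.inl rfl) (hxe 0) (hxe 1) (hxe 2) (fun e' => a1 (Or.inl e'))
      (fun e' => a2 (Or.inl e')) (fun e' => a1 (Or.inr e')) (fun e' => a2 (Or.inr e')) ?_
    intro hA
    exact hT 1 3 (by omega) (by omega) (R 2) (hR 2) (hxR 2) ⟨e 2, he 2, hA⟩ (hRs 2)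
  exact hCI ⟨x, e 0, e 1, e 2, hxe 0, hxe 1, hxe 2, c2, c0, c1⟩

theorem result (hHRQ : ST_HRQ) (hLNK : ST_LNK) (hLMX : ST_LMX) : ST_CY4 := by
  intro V G hDF hP hCI Dθ Dσ Dt hD x t y b ht hy hb hes hbal hnc
  have h : HH G Dt x t y b := ⟨ht, hy, hb, hes, fun g => by
    obtain ⟨i, _, hi⟩ := hbal g
    exact ⟨i, hi⟩, hnc⟩
  exact step2 hLNK hDF hCI hD h fun i j h1 h2 Q hQ hx ti tj =>
    stepT hHRQ hLMX hDF hP hD h h1 h2 hQ hx ti tj

end Pool.Agent.Helper85.DTCY4
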